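import Pool.Agent.W186.AI.Spec
import Pool.Agent.H24R2.JP.B1
import Pool.Agent.H24R2.JP.Grow
import Pool.Agent.H24R2.JP.Zeros
import Pool.Agent.H24R2.JP.Had
import Pool.Agent.H24R2.JP.Mom

set_option autoImplicit false

/-!
The logarithmic derivative of the completed zeta function times s (s - 1) has positive real part
on the half plane of real part larger than one.
-/

namespace Pool.Agent.W409.AI.MON

open Complex Filter Topology Metric Set Polynomial
open Pool.Agent.H24R2.JP
open Pool.Agent.W186.AI (S_GAM S_ZET S_MON ell g Z)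
open scoped Real

/-- one root -/
lemma term_pos {z ρ : ℂ} (hz : 1 / 2 < z.re) (hρ : |ρ.re| ≤ 1 / 2) (hne : z ^ 2 - ρ ^ 2 ≠ 0) :
    0 ≤ (2 * z * (1 / (z ^ 2 - ρ ^ 2))).re := by
  have h1 : z - ρ ≠ 0 := by
    intro h
    apply hne
    linear_combination (z + ρ) * h
  have h2 : z + ρ ≠ 0 := by
    intro h
    apply hne
    linear_combination (z - ρ) * h
  have e : 2 * z * (1 / (z ^ 2 - ρ ^ 2)) = (z - ρ)⁻¹ + (z + ρ)⁻¹ := by
    have e0 : z ^ 2 - ρ ^ 2 = (z - ρ) * (z + ρ) := by ring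
    rw [e0]
    field_simp
    ring
  rw [e, add_re, inv_re, inv_re]
  have h3 := abs_le.1 hρ
  have h4 : 0 ≤ (z - ρ).re := by rw [sub_re]; linarith [h3.2]
  have h5 : 0 ≤ (z + ρ).re := by rw [add_re]; linarith [h3.1]
  have h6 := normSq_nonneg (z - ρ)
  have h7 := normSq_nonneg (z + ρ)
  positivity

/-- square roots of points of `Par` -/
lemma par_sq {r : ℂ} (hr : r ∈ Par) : ∃ ρ : ℂ, ρ ^ 2 = r ∧ |ρ.re| ≤ 1 / 2 := by
  obtain ⟨ρ, rfl⟩ := IsAlgClosed.exists_pow_nat_eq r (n := 2) (by norm_num)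
  refine ⟨ρ, rfl, ?_⟩
  have h : (ρ ^ 2).re + (ρ ^ 2).im ^ 2 ≤ 1 / 4 := hr
  have hre : (ρ ^ 2).re = ρ.re ^ 2 - ρ.im ^ 2 := by rw [pow_two, Complex.mul_re]; ring
  have him : (ρ ^ 2).im = 2 * ρ.re * ρ.im := by rw [pow_two, Complex.mul_im]; ring
  rw [hre, him] at h
  have h2 : (4 * ρ.re ^ 2 - 1) * (ρ.im ^ 2 + 1 / 4) ≤ 0 := by nlinarith
  have h3 : 4 * ρ.re ^ 2 - 1 ≤ 0 := by
    by_contra hc
    push Not at hc
    have : 0 < (4 * ρ.re ^ 2 - 1) * (ρ.im ^ 2 + 1 / 4) := by positivity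
    linarith
  apply abs_le_of_sq_le_sq' ?_ (by norm_num) |> abs_le.2
  nlinarith

lemma poly_pos (p : ℂ[X]) (hp : ∀ r : ℂ, p.eval r = 0 → r ∈ Par) {z : ℂ} (hz : 1 / 2 < z.re)
    (hne : p.eval (z ^ 2) ≠ 0) :
    0 ≤ (2 * z * ((derivative p).eval (z ^ 2) / p.eval (z ^ 2))).re := by
  rw [(IsAlgClosed.splits p).eval_derivative_div_eval_of_ne_zero hne]
  have hp0 : p ≠ 0 := by
    intro h
    rw [h, eval_zero] at hne
    exact hne rfl
  have key : ∀ s : Multiset ℂ, (∀ r ∈ s, r ∈ p.roots) →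
      0 ≤ (2 * z * (s.map fun r => 1 / (z ^ 2 - r)).sum).re := by
    intro s
    induction s using Multiset.induction_on with
    | empty => intro _; simp
    | cons a s ih =>
      intro hs
      rw [Multiset.map_cons, Multiset.sum_cons, mul_add, add_re]
      have h1 := ih (fun r hr => hs r (Multiset.mem_cons_of_mem hr))
      have ha := hs a (Multiset.mem_cons_self a s)
      have ha0 : p.eval a = 0 := (mem_roots hp0).1 ha
      obtain ⟨ρ, hρ, hρ2⟩ := par_sq (hp a ha0)
      have h2 : z ^ 2 - ρ ^ 2 ≠ 0 := by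
        intro h
        apply hne
        rw [sub_eq_zero.1 h, hρ]
        exact ha0
      have h3 := term_pos hz hρ2 h2
      rw [hρ] at h3
      linarith
  exact key _ (fun r hr => hr)


/-- the logarithmic derivative of `XX` -/
lemma XX_re_nonneg {z : ℂ} (hz : 1 / 2 < z.re) : 0 ≤ (deriv XX z / XX z).re := by
  obtain ⟨hFd, hFF, hFc, hFi⟩ := b1
  obtain ⟨K, hK⟩ := grow b1
  have hXz : XX z ≠ 0 := by
    intro h
    have := abs_le.1 (Zer.abs_re_le z h)
    linarith [this.2]
  have hF00 : FF 0 ≠ 0 := by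
    intro h0
    have h1 := hFi 0
    rw [iteratedDeriv_zero] at h1
    obtain ⟨M, hM, hg, _⟩ := mom
    have h2 : 0 < gam 0 := by
      rw [hg 0]
      have := hM 0
      positivity
    rw [h0] at h1
    have h3 : gam 0 = 0 := by exact_mod_cast h1.symm
    linarith
  obtain ⟨P, hP1, hP2⟩ := had FF K hFd hF00 hFc hK
  have hlim0 : Tendsto (fun N => aeval (z ^ 2) (P N)) atTop (𝓝 (FF (z ^ 2))) :=
    (tendstoLocallyUniformlyOn_univ.2 hP2).tendsto_at (mem_univ (z ^ 2))
  have hderiv : Tendsto (fun N => aeval (z ^ 2) (derivative (P N))) atTop (𝓝 (deriv FF (z ^ 2))) := by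
    have h1 : TendstoLocallyUniformlyOn (fun (N : ℕ) (x : ℂ) => aeval x (P N)) FF atTop univ :=
      tendstoLocallyUniformlyOn_univ.2 hP2
    have h2 := h1.deriv (Eventually.of_forall (fun N => by
      exact (Polynomial.differentiable_aeval (P N)).differentiableOn)) isOpen_univ
    have h3 := h2.tendsto_at (mem_univ (z ^ 2))
    refine h3.congr (fun N => ?_)
    simp only [Function.comp]
    exact Polynomial.deriv_aeval (P N)
  have hne : FF (z ^ 2) ≠ 0 := by rw [hFF z]; exact hXz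
  have hlim : Tendsto (fun N => (2 * z * (aeval (z ^ 2) (derivative (P N)) / aeval (z ^ 2) (P N))).re) atTop
      (𝓝 (2 * z * (deriv FF (z ^ 2) / FF (z ^ 2))).re) :=
    (continuous_re.tendsto _).comp ((hderiv.div hlim0 hne).const_mul (2 * z))
  have hpos : ∀ N, 0 ≤ (2 * z * (aeval (z ^ 2) (derivative (P N)) / aeval (z ^ 2) (P N))).re := by
    intro N
    have h1 : aeval (z ^ 2) (P N) ≠ 0 := fun h => hne (hP1 N _ h)
    have h2 := poly_pos ((P N).map (algebraMap ℝ ℂ)) (fun r hr => by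
      apply zeros b1 r
      apply hP1 N r
      rw [← hr, eval_map, aeval_def]) hz (by
      rw [eval_map, ← aeval_def]
      exact h1)
    rw [derivative_map, eval_map, eval_map, ← aeval_def, ← aeval_def] at h2
    exact h2
  have hge := ge_of_tendsto' hlim hpos
  have hd : deriv XX z = 2 * z * deriv FF (z ^ 2) := by
    have e : XX = fun w : ℂ => FF (w ^ 2) := by
      funext w
      exact (hFF w).symm
    have h1 : HasDerivAt (fun w : ℂ => w ^ 2) (2 * z) z := by
      simpa using hasDerivAt_pow 2 z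
    have h2 : HasDerivAt FF (deriv FF (z ^ 2)) (z ^ 2) := (hFd (z ^ 2)).hasDerivAt
    have h3 := h2.comp z h1
    rw [e]
    have h4 : HasDerivAt (fun w : ℂ => FF (w ^ 2)) (deriv FF (z ^ 2) * (2 * z)) z := h3
    rw [h4.deriv]
    ring
  have e2 : deriv XX z / XX z = 2 * z * (deriv FF (z ^ 2) / FF (z ^ 2)) := by
    rw [hd, hFF z, mul_div_assoc]
  rw [e2]
  exact hge

lemma XX_val : XX (3 / 2) ≠ XX (1 / 2) := by
  rw [Zer.XX_half, Zer.XX_eq (3 / 2) (by norm_num) (by norm_num)]
  have e : (1 / 2 + 3 / 2 : ℂ) = 2 := by norm_num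
  rw [e]
  have h2 : riemannZeta 2 = completedRiemannZeta 2 / Gammaℝ 2 := riemannZeta_def_of_ne_zero two_ne_zero
  have h3 : Gammaℝ 2 = (π : ℂ)⁻¹ := by
    rw [Gammaℝ_def]
    norm_num
    rw [cpow_neg_one]
  have hpi : (π : ℂ) ≠ 0 := by exact_mod_cast Real.pi_ne_zero
  have h4 : completedRiemannZeta 2 = (π : ℂ) / 6 := by
    rw [riemannZeta_two, h3] at h2
    field_simp at h2
    field_simp
    linear_combination -h2
  rw [h4]
  intro h
  have h5 : (π : ℂ) = 3 := by
    norm_num at h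
    linear_combination (3 / 4) * h
  have h6 : π = 3 := by exact_mod_cast h5
  have := Real.pi_gt_three
  linarith

/-- `XX` in terms of `ell` -/
lemma XX_ell (hg : S_GAM) (hz : S_ZET) (z : ℂ) (h : 1 / 2 < z.re) : XX z = 4 * cexp (ell (1 / 2 + z)) := by
  have hre : 1 < (1 / 2 + z : ℂ).re := by
    have : (1 / 2 + z : ℂ).re = 1 / 2 + z.re := by simp
    rw [this]
    linarith
  have h0 : (1 / 2 + z : ℂ) ≠ 0 := by
    intro h0
    rw [h0] at hre
    norm_num at hre
  have h1 : (1 - (1 / 2 + z) : ℂ) ≠ 0 := by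
    intro h0
    have h2 : (1 / 2 + z : ℂ) = 1 := by linear_combination -h0
    rw [h2] at hre
    norm_num at hre
  have h4 : Gammaℝ (1 / 2 + z) ≠ 0 := Gammaℝ_ne_zero_of_re_pos (by linarith)
  have h5 : completedRiemannZeta (1 / 2 + z) = Gammaℝ (1 / 2 + z) * riemannZeta (1 / 2 + z) := by
    rw [riemannZeta_def_of_ne_zero h0, mul_div_cancel₀ _ h4]
  rw [Zer.XX_eq z h0 h1, h5]
  show _ = 4 * cexp (g (1 / 2 + z) + Z (1 / 2 + z))
  rw [Complex.exp_add, hg.2.1 _ hre, hz.2.1 _ hre]
  ring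

theorem main (hg : S_GAM) (hz : S_ZET) : S_MON := by
  have hU : IsOpen {s : ℂ | 1 < s.re} := isOpen_lt continuous_const continuous_re
  have hconv : Convex ℝ {s : ℂ | 1 < s.re} := convex_halfSpace_re_gt 1
  have hell : DifferentiableOn ℂ ell {s : ℂ | 1 < s.re} := hg.1.add hz.1
  have hda : ∀ s : ℂ, 1 < s.re → DifferentiableAt ℂ ell s := fun s hs =>
    (hell s hs).differentiableAt (hU.mem_nhds hs)
  have hV : IsOpen {z : ℂ | 1 / 2 < z.re} := isOpen_lt continuous_const continuous_re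
  have hrel : ∀ z : ℂ, 1 / 2 < z.re → deriv XX z = XX z * deriv ell (1 / 2 + z) := by
    intro z h
    have hre : 1 < (1 / 2 + z : ℂ).re := by
      have : (1 / 2 + z : ℂ).re = 1 / 2 + z.re := by simp
      rw [this]
      linarith
    have h1 : HasDerivAt (fun w : ℂ => 1 / 2 + w) 1 z := by
      simpa using (hasDerivAt_id z).const_add (1 / 2 : ℂ)
    have h2 : HasDerivAt ell (deriv ell (1 / 2 + z)) (1 / 2 + z) := (hda _ hre).hasDerivAt
    have h3 := ((h2.comp z h1).cexp).const_mul (4 : ℂ)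
    have h4 : XX =ᶠ[𝓝 z] fun w => 4 * cexp ((ell ∘ fun w : ℂ => 1 / 2 + w) w) := by
      filter_upwards [hV.mem_nhds h] with w hw
      exact XX_ell hg hz w hw
    rw [h4.deriv_eq, h3.deriv, XX_ell hg hz z h]
    simp only [Function.comp]
    ring
  have hXne : ∀ z : ℂ, 1 / 2 < z.re → XX z ≠ 0 := by
    intro z h
    rw [XX_ell hg hz z h]
    exact mul_ne_zero (by norm_num) (Complex.exp_ne_zero _)
  have hnn : ∀ s : ℂ, 1 < s.re → 0 ≤ (deriv ell s).re := by
    intro s hs
    have h1 : 1 / 2 < (s - 1 / 2).re := by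
      have : (s - 1 / 2 : ℂ).re = s.re - 1 / 2 := by simp
      rw [this]
      linarith
    have h2 := XX_re_nonneg h1
    rw [hrel _ h1, mul_comm, mul_div_assoc, div_self (hXne _ h1), mul_one] at h2
    have h3 : (1 / 2 + (s - 1 / 2) : ℂ) = s := by ring
    rwa [h3] at h2
  have han : AnalyticOnNhd ℂ (deriv ell) {s : ℂ | 1 < s.re} :=
    (hell.analyticOnNhd hU).deriv
  rcases han.is_constant_or_isOpen hconv.isPreconnected with ⟨c, hc⟩ | hopen
  · exfalso
    have hXd : Differentiable ℂ XX := B1h.XX_diff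
    have h1 : ∀ z : ℂ, deriv XX z = c * XX z := by
      have hA : AnalyticOnNhd ℂ (deriv XX) univ := by
        apply AnalyticOnNhd.deriv
        exact hXd.differentiableOn.analyticOnNhd isOpen_univ
      have hB : AnalyticOnNhd ℂ (fun z => c * XX z) univ :=
        (hXd.const_mul c).differentiableOn.analyticOnNhd isOpen_univ
      have h2 : deriv XX =ᶠ[𝓝 (1 : ℂ)] fun z => c * XX z := by
        filter_upwards [hV.mem_nhds (show (1 : ℂ) ∈ {z : ℂ | 1 / 2 < z.re} by
          show (1 / 2 : ℝ) < (1 : ℂ).re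
          norm_num)] with w hw
        rw [hrel w hw, hc]
        · ring
        · show 1 < (1 / 2 + w : ℂ).re
          have : (1 / 2 + w : ℂ).re = 1 / 2 + w.re := by simp
          rw [this]
          have hw' : 1 / 2 < w.re := hw
          linarith
      intro z
      exact hA.eqOn_of_preconnected_of_eventuallyEq hB isPreconnected_univ (mem_univ 1) h2 (mem_univ z)
    have h2 : ∀ z : ℂ, deriv XX z = 0 := by
      intro z
      have e : deriv XX (-z) = -deriv XX z := by
        have h3 : HasDerivAt XX (deriv XX (-z)) (-z) := (hXd (-z)).hasDerivAt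
        have h4 : HasDerivAt (fun w : ℂ => -w) (-1) z := hasDerivAt_neg z
        have h5 := h3.comp z h4
        have h6 : (XX ∘ fun w : ℂ => -w) = XX := by
          funext w
          exact Zer.XX_even w
        rw [h6] at h5
        rw [h5.deriv]
        ring
      have h3 := h1 (-z)
      rw [Zer.XX_even, ← h1 z, e] at h3
      have h4 : (2 : ℂ) * deriv XX z = 0 := by linear_combination -h3
      exact (mul_eq_zero.1 h4).resolve_left two_ne_zero
    exact XX_val (is_const_of_deriv_eq_zero hXd h2 _ _)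
  · intro s hs
    have h1 := hopen _ (le_refl _) hU
    have h2 : deriv ell s ∈ deriv ell '' {s : ℂ | 1 < s.re} := ⟨s, hs, rfl⟩
    obtain ⟨ε, hε, hball⟩ := Metric.isOpen_iff.1 h1 _ h2
    have h3 : deriv ell s - ((ε / 2 : ℝ) : ℂ) ∈ ball (deriv ell s) ε := by
      rw [mem_ball, dist_eq_norm]
      have : deriv ell s - ((ε / 2 : ℝ) : ℂ) - deriv ell s = -((ε / 2 : ℝ) : ℂ) := by ring
      rw [this, norm_neg, Complex.norm_real, Real.norm_eq_abs, abs_of_pos (by positivity)]
      linarith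
    obtain ⟨u, hu, hu2⟩ := hball h3
    have h4 := hnn u hu
    rw [hu2, sub_re, ofReal_re] at h4
    linarith

end Pool.Agent.W409.AI.MON
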